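import Pool.Agent.Helper60_AK.StmtF

/-! # Squad AK (MP_d7b937_an): module E2, asymptotics deep inside. -/

set_option autoImplicit false

namespace Pool.Agent.AK.H34

open MeasureTheory Set Filter Topology

theorem tails {φ : ℝ → ℂ} (hφ : Integrable φ) {a b A B : ℝ}
    (hA : ∀ L ≤ a, ‖φ L‖ ≤ A * Real.exp L) (hB : ∀ L, b < L → ‖φ L‖ ≤ B * Real.exp (-L)) :
    ‖(∫ L in a..b, φ L) - ∫ L, φ L‖ ≤ A * Real.exp a + B * Real.exp (-b) := by
  have h1 := intervalIntegral.integral_Iic_sub_Iic (hφ.integrableOn (s := Iic a))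
    (hφ.integrableOn (s := Iic b))
  have h2 := intervalIntegral.integral_Iic_add_Ioi (hφ.integrableOn (s := Iic b))
    (hφ.integrableOn (s := Ioi b))
  have e : (∫ L in a..b, φ L) - ∫ L, φ L = -((∫ L in Iic a, φ L) + ∫ L in Ioi b, φ L) := by
    rw [← h1, ← h2]; ring
  have h3 : ‖∫ L in Iic a, φ L‖ ≤ A * Real.exp a := by
    have hi : IntegrableOn (fun L => A * Real.exp L) (Iic a) :=
      (integrableOn_exp_Iic a).const_mul A
    have := norm_integral_le_of_norm_le hi ((ae_restrict_iff' measurableSet_Iic).2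
      (Eventually.of_forall fun L hL => hA L hL))
    rwa [integral_const_mul, integral_exp_Iic] at this
  have h4 : ‖∫ L in Ioi b, φ L‖ ≤ B * Real.exp (-b) := by
    have hi : IntegrableOn (fun L => B * Real.exp (-L)) (Ioi b) :=
      (integrableOn_exp_neg_Ioi b).const_mul B
    have := norm_integral_le_of_norm_le hi ((ae_restrict_iff' measurableSet_Ioi).2
      (Eventually.of_forall fun L hL => hB L hL))
    rwa [integral_const_mul, integral_exp_neg_Ioi] at this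
  rw [e, norm_neg]
  exact (norm_add_le _ _).trans (add_le_add h3 h4)

theorem tay {φ : ℝ → ℂ} {t0 C : ℝ} (h0 : 0 < t0) {N : ℕ}
    (hd : ∀ t ∈ Icc 0 t0, ContDiffAt ℝ ((N + 1 : ℕ) : WithTop ℕ∞) φ t)
    (hC : ∀ t ∈ Icc 0 t0, ‖iteratedDeriv (N + 1) φ t‖ ≤ C) {t : ℝ} (ht : t ∈ Icc 0 t0) :
    ‖φ t - ∑ i ∈ Finset.range (N + 1), (((i.factorial : ℝ)⁻¹ * t ^ i) • iteratedDeriv i φ 0)‖ ≤
      C * t ^ (N + 1) := by
  have hu : UniqueDiffOn ℝ (Icc 0 t0) := uniqueDiffOn_Icc h0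
  have h1 : ContDiffOn ℝ ((N : WithTop ℕ∞) + 1) φ (Icc 0 t0) := by
    intro x hx
    have := (hd x hx).contDiffWithinAt (s := Icc 0 t0)
    push_cast at this
    exact this
  have hC0 : 0 ≤ C := (norm_nonneg _).trans (hC t ht)
  have h2 := taylor_mean_remainder_bound (C := C) h0.le h1 ht (fun y hy => by
    rw [iteratedDerivWithin_eq_iteratedDeriv hu (hd y hy) hy]
    exact hC y hy)
  rw [taylor_within_apply] at h2
  have h00 : (0 : ℝ) ∈ Icc 0 t0 := ⟨le_rfl, h0.le⟩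
  have e : ∑ k ∈ Finset.range (N + 1), (((k.factorial : ℝ)⁻¹ * (t - 0) ^ k) •
      iteratedDerivWithin k φ (Icc 0 t0) 0) =
      ∑ i ∈ Finset.range (N + 1), (((i.factorial : ℝ)⁻¹ * t ^ i) • iteratedDeriv i φ 0) := by
    refine Finset.sum_congr rfl fun k hk => ?_
    rw [sub_zero, iteratedDerivWithin_eq_iteratedDeriv hu ((hd 0 h00).of_le ?_) h00]
    have := Finset.mem_range.1 hk
    exact_mod_cast this.le
  rw [e, sub_zero] at h2
  refine h2.trans ?_
  rw [div_le_iff₀ (by positivity)]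
  have h3 : (1 : ℝ) ≤ (N.factorial : ℝ) := by exact_mod_cast Nat.one_le_iff_ne_zero.2 (Nat.factorial_ne_zero N)
  have h4 : 0 ≤ C * t ^ (N + 1) := mul_nonneg hC0 (pow_nonneg ht.1 _)
  nlinarith

theorem dec_bound {g : ℂ → ℂ} (hg : Dec g) (M : ℕ) (R : ℝ) :
    ∃ C : ℝ, 0 ≤ C ∧ ∀ c : ℂ, ‖c‖ ≤ R → ∀ L : ℝ,
      ‖g ((L : ℂ) - c)‖ ≤ C * Real.exp (-((M : ℝ) * |L|)) := by
  obtain ⟨C, hC⟩ := hg.2 M R
  rcases lt_or_ge R 0 with hR | hR
  · exact ⟨0, le_rfl, fun c hc => absurd ((norm_nonneg c).trans hc) (not_le.2 hR)⟩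
  have hC0 : 0 ≤ C := by
    have := hC 0 (by simpa using hR)
    have h2 : (0 : ℝ) ≤ C * Real.exp (-((M : ℝ) * |(0 : ℂ).re|)) := (norm_nonneg _).trans this
    exact nonneg_of_mul_nonneg_left h2 (Real.exp_pos _)
  refine ⟨C * Real.exp (M * R), mul_nonneg hC0 (Real.exp_pos _).le, fun c hc L => ?_⟩
  have h1 : |((L : ℂ) - c).im| ≤ R := by
    have : ((L : ℂ) - c).im = -c.im := by simp
    rw [this, abs_neg]
    exact (Complex.abs_im_le_norm c).trans hc
  have h2 := hC _ h1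
  refine h2.trans ?_
  rw [mul_assoc, ← Real.exp_add]
  refine mul_le_mul_of_nonneg_left ?_ hC0
  refine Real.exp_le_exp.2 ?_
  have h3 : |L| - R ≤ |((L : ℂ) - c).re| := by
    have e : ((L : ℂ) - c).re = L - c.re := by simp
    rw [e]
    have h4 := abs_sub_abs_le_abs_sub L c.re
    have h5 := (Complex.abs_re_le_norm c).trans hc
    linarith
  have h6 : (0 : ℝ) ≤ (M : ℝ) := Nat.cast_nonneg M
  nlinarith

theorem whole (h3 : F3aStmt) {g : ℂ → ℂ} (hg : Dec g) (i : ℕ) (c : ℂ) :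
    Integrable (fun L : ℝ => Complex.exp ((i : ℂ) * (L : ℂ)) * g ((L : ℂ) - c)) ∧
    ∫ L : ℝ, Complex.exp ((i : ℂ) * (L : ℂ)) * g ((L : ℂ) - c) =
      Complex.exp ((i : ℂ) * c) * ∫ x : ℝ, Complex.exp ((i : ℂ) * (x : ℂ)) * g (x : ℂ) := by
  obtain ⟨-, h2, -, -, -, -, h7, -⟩ := h3
  have hG := h2 g (i : ℝ) hg
  obtain ⟨k1, k2⟩ := h7 _ hG c
  have e : (fun L : ℝ => Complex.exp ((i : ℂ) * (L : ℂ)) * g ((L : ℂ) - c)) =
      fun L : ℝ => Complex.exp ((i : ℂ) * c) *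
        (Complex.exp ((((i : ℝ) : ℝ) : ℂ) * ((L : ℂ) - c)) * g ((L : ℂ) - c)) := by
    funext L
    rw [← mul_assoc, ← Complex.exp_add]
    congr 2
    push_cast
    ring
  constructor
  · rw [e]; exact k1.const_mul _
  · rw [e, integral_const_mul, k2]
    simp

theorem exp_abs_int : Integrable (fun x : ℝ => 2 * (1 + x ^ 2)⁻¹) :=
  integrable_inv_one_add_sq.const_mul 2

theorem exp_abs_le (x : ℝ) : Real.exp (-|x|) ≤ 2 * (1 + x ^ 2)⁻¹ := by
  have h1 : 1 + |x| + |x| ^ 2 / 2 ≤ Real.exp |x| := Real.quadratic_le_exp_of_nonneg (abs_nonneg x)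
  have h2 : |x| ^ 2 = x ^ 2 := sq_abs x
  have h3 : 0 ≤ |x| := abs_nonneg x
  have h4 : (1 + x ^ 2) / 2 ≤ Real.exp |x| := by nlinarith
  rw [Real.exp_neg]
  have h5 : (0 : ℝ) < (1 + x ^ 2) / 2 := by positivity
  calc (Real.exp |x|)⁻¹ ≤ ((1 + x ^ 2) / 2)⁻¹ := inv_anti₀ h5 h4
    _ = 2 * (1 + x ^ 2)⁻¹ := by field_simp

/-- E2 -/
theorem e2 (hE : E2aStmt) (h3 : F3aStmt) : E2Stmt := by
  intro Ω ρ f k0 B V t0 c2 hS c0 hc0 k N g hg hmom
  have hcpt := hS.geo.cpt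
  -- bounds on V
  obtain ⟨R0, hR0⟩ : ∃ R0 : ℝ, ∀ p ∈ V, ‖c0 p‖ ≤ R0 := by
    obtain ⟨U, -, hVU, hc⟩ := hc0
    obtain ⟨C, hC⟩ := hcpt.exists_bound_of_continuousOn (hc.continuousOn.mono hVU)
    exact ⟨C, fun p hp => hC p (subset_closure hp)⟩
  obtain ⟨R1, hR1, hR1'⟩ : ∃ R1 : ℝ, 1 ≤ R1 ∧ ∀ p ∈ V, |ρ p| ≤ R1 := by
    obtain ⟨C, hC⟩ := hcpt.exists_bound_of_continuousOn
      (hS.dom.smooth.continuous.continuousOn (s := closure V))
    exact ⟨max C 1, le_max_right _ _, fun p hp => (hC p (subset_closure hp)).trans (le_max_left _ _)⟩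
  obtain ⟨Cg, hCg0, hCg⟩ := dec_bound hg (2 * N + 2) R0
  choose Cd hCd using (fun n => hE Ω ρ f k0 B V t0 c2 hS k n)
  have ht0 := hS.geo.t0pos
  have ht1 := hS.geo.t0le
  set I0 : ℝ := ∫ x : ℝ, 2 * (1 + x ^ 2)⁻¹ with hI0
  have hI00 : 0 ≤ I0 := integral_nonneg fun x => by positivity
  set Ct : ℝ := Cg * (1 + (t0 ^ (N + 1))⁻¹) with hCt
  have hCt0 : 0 ≤ Ct := mul_nonneg hCg0 (by positivity)
  refine ⟨(∑ i ∈ Finset.range (N + 1), |Cd i| * Ct * R1 ^ (N + 1)) + |Cd (N + 1)| * Cg * I0,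
    fun ε hε hεt p hp hρ => ?_⟩
  have hρ0 : ρ p < 0 := by linarith
  set D : ℝ := |ρ p| with hD
  have hDpos : 0 < D := abs_pos.2 hρ0.ne
  have hDε : ε ≤ D := by rw [hD, abs_of_neg hρ0]; linarith
  have hDR : D ≤ R1 := hR1' p hp
  set a : ℝ := Real.log ε with ha
  set b : ℝ := Real.log (t0 / ε) with hb
  have hε1 : ε < 1 := lt_of_lt_of_le hεt ht1
  have ha0 : a < 0 := Real.log_neg hε hε1
  have hb0 : 0 < b := Real.log_pos ((one_lt_div hε).2 hεt)
  have hab : a ≤ b := by linarith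
  have hea : Real.exp a = ε := Real.exp_log hε
  have heb : Real.exp b = t0 / ε := Real.exp_log (by positivity)
  set φ : ℝ → ℂ := fun s => Fk ρ f k p s with hφ
  set u : ℝ → ℂ := fun L => g ((L : ℂ) - c0 p) with hu
  have hub : ∀ L : ℝ, ‖u L‖ ≤ Cg * Real.exp (-(((2 * N + 2 : ℕ) : ℝ) * |L|)) :=
    fun L => hCg (c0 p) (hR0 p hp) L
  have huc : Continuous u := by
    have h1 : Continuous g := hg.1.continuous
    exact h1.comp (by fun_prop)
  -- the points t
  have htI : ∀ L ∈ Icc a b, ε * Real.exp L ∈ Icc 0 t0 := by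
    intro L hL
    refine ⟨by positivity, ?_⟩
    have h1 : Real.exp L ≤ t0 / ε := by rw [← heb]; exact Real.exp_le_exp.2 hL.2
    calc ε * Real.exp L ≤ ε * (t0 / ε) := mul_le_mul_of_nonneg_left h1 hε.le
      _ = t0 := by field_simp
  have hcd : ∀ n : ℕ, ∀ t ∈ Icc 0 t0, ContDiffAt ℝ (n : WithTop ℕ∞) φ t := fun n t ht =>
    (hCd n p hp hρ0 t ht.1 ht.2).1
  have hcb : ∀ n : ℕ, ∀ t ∈ Icc 0 t0, ‖iteratedDeriv n φ t‖ ≤ |Cd n| / D ^ (k + n) := by
    intro n t ht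
    refine ((hCd n p hp hρ0 t ht.1 ht.2).2).trans ?_
    exact div_le_div_of_nonneg_right (le_abs_self _) (by positivity)
  set α : ℕ → ℂ := fun i => ((i.factorial : ℝ)⁻¹ : ℝ) • iteratedDeriv i φ 0 with hα
  have h00 : (0 : ℝ) ∈ Icc 0 t0 := ⟨le_rfl, ht0.le⟩
  have hαb : ∀ i, ‖α i‖ ≤ |Cd i| / D ^ (k + i) := by
    intro i
    have h1 : ‖α i‖ = ((i.factorial : ℝ)⁻¹) * ‖iteratedDeriv i φ 0‖ := by
      rw [hα]
      simp only
      rw [norm_smul, Real.norm_eq_abs, abs_of_nonneg (by positivity)]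
    rw [h1]
    have h2 : ((i.factorial : ℝ)⁻¹) ≤ 1 :=
      inv_le_one_of_one_le₀ (by exact_mod_cast Nat.one_le_iff_ne_zero.2 (Nat.factorial_ne_zero i))
    calc ((i.factorial : ℝ)⁻¹) * ‖iteratedDeriv i φ 0‖ ≤ 1 * ‖iteratedDeriv i φ 0‖ :=
          mul_le_mul_of_nonneg_right h2 (norm_nonneg _)
      _ ≤ |Cd i| / D ^ (k + i) := by rw [one_mul]; exact hcb i 0 h00
  have hα0 : α 0 = Fk ρ f k p 0 := by simp [hα, hφ]
  -- Taylor remainder
  set Rm : ℝ → ℂ := fun L => φ (ε * Real.exp L) -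
    ∑ i ∈ Finset.range (N + 1), α i * ((ε : ℂ) ^ i * Complex.exp ((i : ℂ) * (L : ℂ))) with hRm
  have hRmb : ∀ L ∈ Icc a b, ‖Rm L‖ ≤ |Cd (N + 1)| / D ^ (k + (N + 1)) * (ε * Real.exp L) ^ (N + 1) := by
    intro L hL
    have h1 := tay ht0 (hcd (N + 1)) (hcb (N + 1)) (htI L hL)
    have e : ∑ i ∈ Finset.range (N + 1), (((i.factorial : ℝ)⁻¹ * (ε * Real.exp L) ^ i) •
        iteratedDeriv i φ 0) =
        ∑ i ∈ Finset.range (N + 1), α i * ((ε : ℂ) ^ i * Complex.exp ((i : ℂ) * (L : ℂ))) := by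
      refine Finset.sum_congr rfl fun i _ => ?_
      simp only [hα, Complex.real_smul]
      push_cast
      rw [mul_pow, ← Complex.exp_nat_mul]
      ring
    rw [e] at h1
    exact h1
  -- the integral
  have hφc : ContinuousOn (fun L : ℝ => φ (ε * Real.exp L)) (Icc a b) := by
    have h1 : ContinuousOn φ (Icc 0 t0) := fun t ht => (hcd 0 t ht).continuousAt.continuousWithinAt
    exact h1.comp (by fun_prop) htI
  have hexpc : ∀ i : ℕ, Continuous (fun L : ℝ => Complex.exp ((i : ℂ) * (L : ℂ)) * u L) := by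
    intro i
    exact Continuous.mul (by fun_prop) huc
  have hRmc : ContinuousOn Rm (Icc a b) := by
    refine hφc.sub (Continuous.continuousOn ?_)
    refine continuous_finset_sum _ fun i _ => ?_
    fun_prop
  have hint1 : IntervalIntegrable (fun L => Rm L * u L) volume a b := by
    refine ContinuousOn.intervalIntegrable ?_
    rw [uIcc_of_le hab]
    exact hRmc.mul huc.continuousOn
  have hint2 : ∀ i : ℕ, IntervalIntegrable
      (fun L : ℝ => α i * (ε : ℂ) ^ i * (Complex.exp ((i : ℂ) * (L : ℂ)) * u L)) volume a b :=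
    fun i => ((hexpc i).const_mul _ |>.intervalIntegrable a b)
  have hsplit : (∫ L in a..b, φ (ε * Real.exp L) * u L) =
      (∫ L in a..b, Rm L * u L) + ∑ i ∈ Finset.range (N + 1), α i * (ε : ℂ) ^ i *
        ∫ L in a..b, Complex.exp ((i : ℂ) * (L : ℂ)) * u L := by
    have e : (fun L : ℝ => φ (ε * Real.exp L) * u L) = fun L => Rm L * u L +
        ∑ i ∈ Finset.range (N + 1), α i * (ε : ℂ) ^ i * (Complex.exp ((i : ℂ) * (L : ℂ)) * u L) := by
      funext L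
      have e2 : ∑ i ∈ Finset.range (N + 1), α i * (ε : ℂ) ^ i *
          (Complex.exp ((i : ℂ) * (L : ℂ)) * u L) =
          (∑ i ∈ Finset.range (N + 1), α i * ((ε : ℂ) ^ i * Complex.exp ((i : ℂ) * (L : ℂ)))) * u L := by
        rw [Finset.sum_mul]
        exact Finset.sum_congr rfl fun i _ => by ring
      rw [e2]
      simp only [hRm]
      ring
    have hs : IntervalIntegrable (fun L : ℝ => ∑ i ∈ Finset.range (N + 1),
        α i * (ε : ℂ) ^ i * (Complex.exp ((i : ℂ) * (L : ℂ)) * u L)) volume a b := by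
      have hcs : Continuous (fun L : ℝ => ∑ i ∈ Finset.range (N + 1),
        α i * (ε : ℂ) ^ i * (Complex.exp ((i : ℂ) * (L : ℂ)) * u L)) :=
        continuous_finset_sum _ fun i _ => (hexpc i).const_mul _
      exact hcs.intervalIntegrable a b
    rw [e, intervalIntegral.integral_add hint1 hs, intervalIntegral.integral_finset_sum
      (fun i _ => hint2 i)]
    congr 1
    exact Finset.sum_congr rfl fun i _ => intervalIntegral.integral_const_mul _ _
  -- tails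
  have htail : ∀ i ∈ Finset.range (N + 1),
      ‖(∫ L in a..b, Complex.exp ((i : ℂ) * (L : ℂ)) * u L) -
        (if i = 0 then ∫ x : ℝ, g (x : ℂ) else 0)‖ ≤ Ct * ε ^ (N + 1) := by
    intro i hi
    have hiN : i ≤ N := Nat.lt_succ_iff.1 (Finset.mem_range.1 hi)
    have hiN' : (i : ℝ) ≤ N := by exact_mod_cast hiN
    have hi0 : (0 : ℝ) ≤ i := Nat.cast_nonneg i
    obtain ⟨w1, w2⟩ := whole h3 hg i (c0 p)
    have hw : (∫ L : ℝ, Complex.exp ((i : ℂ) * (L : ℂ)) * u L) =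
        (if i = 0 then ∫ x : ℝ, g (x : ℂ) else 0) := by
      rw [hu]
      simp only
      rw [w2]
      rcases Nat.eq_zero_or_pos i with rfl | hpos
      · simp
      · rw [if_neg (by omega), hmom i hpos hiN, mul_zero]
    rw [← hw]
    have hnorm : ∀ L : ℝ, ‖Complex.exp ((i : ℂ) * (L : ℂ)) * u L‖ ≤
        Cg * Real.exp ((i : ℝ) * L - ((2 * N + 2 : ℕ) : ℝ) * |L|) := by
      intro L
      rw [norm_mul, Complex.norm_exp]
      have e1 : ((i : ℂ) * (L : ℂ)).re = (i : ℝ) * L := by simp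
      rw [e1]
      calc Real.exp ((i : ℝ) * L) * ‖u L‖
          ≤ Real.exp ((i : ℝ) * L) * (Cg * Real.exp (-(((2 * N + 2 : ℕ) : ℝ) * |L|))) :=
            mul_le_mul_of_nonneg_left (hub L) (Real.exp_pos _).le
        _ = Cg * Real.exp ((i : ℝ) * L - ((2 * N + 2 : ℕ) : ℝ) * |L|) := by
            rw [sub_eq_add_neg, Real.exp_add]; ring
    have hT := tails (φ := fun L : ℝ => Complex.exp ((i : ℂ) * (L : ℂ)) * u L) w1 (a := a) (b := b)
      (A := Cg * ε ^ (N + 1)) (B := Cg * ((t0 ^ (N + 1))⁻¹ * ε ^ (N + 1))) ?_ ?_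
    · refine hT.trans ?_
      have h1 : Real.exp a ≤ 1 := Real.exp_le_one_iff.2 ha0.le
      have h2 : Real.exp (-b) ≤ 1 := Real.exp_le_one_iff.2 (by linarith)
      have h4 : 0 ≤ Cg * ε ^ (N + 1) := by positivity
      have h5 : 0 ≤ Cg * ((t0 ^ (N + 1))⁻¹ * ε ^ (N + 1)) := by positivity
      have h6 := mul_le_mul_of_nonneg_left h1 h4
      have h7 := mul_le_mul_of_nonneg_left h2 h5
      rw [hCt]
      nlinarith
    · intro L hL
      have hL0 : L < 0 := lt_of_le_of_lt hL ha0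
      refine (hnorm L).trans ?_
      rw [mul_assoc]
      refine mul_le_mul_of_nonneg_left ?_ hCg0
      have e1 : ε ^ (N + 1) = Real.exp (((N + 1 : ℕ) : ℝ) * a) := by
        rw [← hea, ← Real.exp_nat_mul]
      rw [e1, ← Real.exp_add]
      refine Real.exp_le_exp.2 ?_
      rw [abs_of_neg hL0]
      push_cast
      have hN0 : (0 : ℝ) ≤ N := Nat.cast_nonneg N
      nlinarith [mul_le_mul_of_nonneg_left hL (show (0 : ℝ) ≤ (N : ℝ) + 1 by positivity),
        mul_nonneg hi0 (neg_nonneg.2 hL0.le), mul_nonneg hN0 (neg_nonneg.2 hL0.le)]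
    · intro L hL
      have hL0 : 0 < L := lt_trans hb0 hL
      refine (hnorm L).trans ?_
      rw [mul_assoc]
      refine mul_le_mul_of_nonneg_left ?_ hCg0
      have e1 : (t0 ^ (N + 1))⁻¹ * ε ^ (N + 1) = Real.exp (-(((N + 1 : ℕ) : ℝ) * b)) := by
        rw [Real.exp_neg, Real.exp_nat_mul, heb, div_pow, inv_div]
        field_simp
      rw [e1, ← Real.exp_add]
      refine Real.exp_le_exp.2 ?_
      rw [abs_of_pos hL0]
      push_cast
      have hN0 : (0 : ℝ) ≤ N := Nat.cast_nonneg N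
      nlinarith [mul_le_mul_of_nonneg_left hL.le (show (0 : ℝ) ≤ (N : ℝ) + 1 by positivity),
        mul_le_mul_of_nonneg_right hiN' hL0.le]
  -- remainder integral
  have hrem : ‖∫ L in a..b, Rm L * u L‖ ≤
      |Cd (N + 1)| / D ^ (k + (N + 1)) * ε ^ (N + 1) * Cg * I0 := by
    set K1 : ℝ := |Cd (N + 1)| / D ^ (k + (N + 1)) * ε ^ (N + 1) * Cg with hK1
    have hK10 : 0 ≤ K1 := by positivity
    have hb1 : ∀ L ∈ Ioc a b, ‖Rm L * u L‖ ≤ K1 * (2 * (1 + L ^ 2)⁻¹) := by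
      intro L hL
      rw [norm_mul]
      have h1 := hRmb L (Ioc_subset_Icc_self hL)
      have h2 := hub L
      have h4 : Real.exp L ^ (N + 1) * Real.exp (-(((2 * N + 2 : ℕ) : ℝ) * |L|)) ≤
          2 * (1 + L ^ 2)⁻¹ := by
        refine le_trans ?_ (exp_abs_le L)
        rw [← Real.exp_nat_mul, ← Real.exp_add]
        refine Real.exp_le_exp.2 ?_
        have h5 : L ≤ |L| := le_abs_self L
        have h6 : 0 ≤ |L| := abs_nonneg L
        have hN0 : (0 : ℝ) ≤ N := Nat.cast_nonneg N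
        push_cast
        nlinarith [mul_le_mul_of_nonneg_left h5 (show (0 : ℝ) ≤ (N : ℝ) + 1 by positivity),
          mul_nonneg hN0 h6]
      calc ‖Rm L‖ * ‖u L‖ ≤ (|Cd (N + 1)| / D ^ (k + (N + 1)) * (ε * Real.exp L) ^ (N + 1)) *
            (Cg * Real.exp (-(((2 * N + 2 : ℕ) : ℝ) * |L|))) :=
            mul_le_mul h1 h2 (norm_nonneg _) (by positivity)
        _ = K1 * (Real.exp L ^ (N + 1) * Real.exp (-(((2 * N + 2 : ℕ) : ℝ) * |L|))) := by
            rw [hK1, mul_pow]; ring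
        _ ≤ K1 * (2 * (1 + L ^ 2)⁻¹) := mul_le_mul_of_nonneg_left h4 hK10
    have hg1 : IntervalIntegrable (fun L : ℝ => K1 * (2 * (1 + L ^ 2)⁻¹)) volume a b :=
      (exp_abs_int.const_mul K1).intervalIntegrable
    refine (intervalIntegral.norm_integral_le_of_norm_le hab
      (Eventually.of_forall fun L hL => hb1 L hL) hg1).trans ?_
    rw [intervalIntegral.integral_of_le hab, integral_const_mul]
    refine mul_le_mul_of_nonneg_left ?_ hK10
    exact setIntegral_le_integral exp_abs_int (Eventually.of_forall fun x => by positivity)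
  -- assembly
  have hIk : Ik ρ f c0 t0 ε k g p = (ε : ℂ) ^ k * ∫ L in a..b, φ (ε * Real.exp L) * u L := rfl
  have hsum0 : ∑ i ∈ Finset.range (N + 1), α i * (ε : ℂ) ^ i *
      (if i = 0 then ∫ x : ℝ, g (x : ℂ) else 0) = α 0 * ∫ x : ℝ, g (x : ℂ) := by
    rw [Finset.sum_eq_single 0]
    · simp
    · intro i _ hi; simp [hi]
    · intro h; exact absurd (Finset.mem_range.2 (Nat.succ_pos N)) h
  have hdiff : Ik ρ f c0 t0 ε k g p - (∫ x : ℝ, g (x : ℂ)) * (ε : ℂ) ^ k * Fk ρ f k p 0 =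
      (ε : ℂ) ^ k * ((∫ L in a..b, Rm L * u L) + ∑ i ∈ Finset.range (N + 1), α i * (ε : ℂ) ^ i *
        ((∫ L in a..b, Complex.exp ((i : ℂ) * (L : ℂ)) * u L) -
          (if i = 0 then ∫ x : ℝ, g (x : ℂ) else 0))) := by
    rw [hIk, hsplit, ← hα0]
    have e : ∑ i ∈ Finset.range (N + 1), α i * (ε : ℂ) ^ i *
        ((∫ L in a..b, Complex.exp ((i : ℂ) * (L : ℂ)) * u L) -
          (if i = 0 then ∫ x : ℝ, g (x : ℂ) else 0)) =
        (∑ i ∈ Finset.range (N + 1), α i * (ε : ℂ) ^ i *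
          ∫ L in a..b, Complex.exp ((i : ℂ) * (L : ℂ)) * u L) - α 0 * ∫ x : ℝ, g (x : ℂ) := by
      rw [← hsum0, ← Finset.sum_sub_distrib]
      exact Finset.sum_congr rfl fun i _ => by ring
    rw [e]; ring
  rw [hdiff, norm_mul, norm_pow, Complex.norm_real, Real.norm_eq_abs, abs_of_pos hε]
  have hεD : 0 < ε / D := by positivity
  have hterm : ∀ i ∈ Finset.range (N + 1), ε ^ k * ‖α i * (ε : ℂ) ^ i *
        ((∫ L in a..b, Complex.exp ((i : ℂ) * (L : ℂ)) * u L) -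
          (if i = 0 then ∫ x : ℝ, g (x : ℂ) else 0))‖ ≤
      |Cd i| * Ct * R1 ^ (N + 1) * (ε / D) ^ (N + 1 + k) := by
    intro i hi
    have hiN : i ≤ N := Nat.lt_succ_iff.1 (Finset.mem_range.1 hi)
    rw [norm_mul, norm_mul, norm_pow, Complex.norm_real, Real.norm_eq_abs, abs_of_pos hε]
    have h1 := hαb i
    have h2 := htail i hi
    calc ε ^ k * (‖α i‖ * ε ^ i * ‖(∫ L in a..b, Complex.exp ((i : ℂ) * (L : ℂ)) * u L) -
          (if i = 0 then ∫ x : ℝ, g (x : ℂ) else 0)‖)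
        ≤ ε ^ k * (|Cd i| / D ^ (k + i) * ε ^ i * (Ct * ε ^ (N + 1))) := by
          refine mul_le_mul_of_nonneg_left ?_ (by positivity)
          exact mul_le_mul (mul_le_mul_of_nonneg_right h1 (by positivity)) h2 (norm_nonneg _)
            (by positivity)
      _ = |Cd i| * Ct * ((ε / D) ^ (k + i) * ε ^ (N + 1)) := by
          rw [div_pow, pow_add ε k i]; ring
      _ ≤ |Cd i| * Ct * ((ε / D) ^ (k + i) * (R1 ^ (N + 1) * (ε / D) ^ (N + 1 - i))) := by
          refine mul_le_mul_of_nonneg_left ?_ (by positivity)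
          refine mul_le_mul_of_nonneg_left ?_ (by positivity)
          calc ε ^ (N + 1) ≤ ε ^ (N + 1 - i) :=
                pow_le_pow_of_le_one hε.le hε1.le (Nat.sub_le _ _)
            _ = D ^ (N + 1 - i) * (ε / D) ^ (N + 1 - i) := by
                rw [← mul_pow]; congr 1; field_simp
            _ ≤ R1 ^ (N + 1) * (ε / D) ^ (N + 1 - i) := by
                refine mul_le_mul_of_nonneg_right ?_ (by positivity)
                calc D ^ (N + 1 - i) ≤ R1 ^ (N + 1 - i) := pow_le_pow_left₀ hDpos.le hDR _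
                  _ ≤ R1 ^ (N + 1) := pow_le_pow_right₀ hR1 (Nat.sub_le _ _)
      _ = |Cd i| * Ct * R1 ^ (N + 1) * (ε / D) ^ (N + 1 + k) := by
          have e : (ε / D) ^ (N + 1 + k) = (ε / D) ^ (k + i) * (ε / D) ^ (N + 1 - i) := by
            rw [← pow_add]; congr 1; omega
          rw [e]; ring
  have hremt : ε ^ k * ‖∫ L in a..b, Rm L * u L‖ ≤
      |Cd (N + 1)| * Cg * I0 * (ε / D) ^ (N + 1 + k) := by
    calc ε ^ k * ‖∫ L in a..b, Rm L * u L‖
        ≤ ε ^ k * (|Cd (N + 1)| / D ^ (k + (N + 1)) * ε ^ (N + 1) * Cg * I0) :=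
          mul_le_mul_of_nonneg_left hrem (by positivity)
      _ = |Cd (N + 1)| * Cg * I0 * (ε / D) ^ (N + 1 + k) := by
          have e : N + 1 + k = k + (N + 1) := by omega
          rw [e, div_pow, pow_add ε k (N + 1)]; ring
  calc ε ^ k * ‖(∫ L in a..b, Rm L * u L) + ∑ i ∈ Finset.range (N + 1), α i * (ε : ℂ) ^ i *
        ((∫ L in a..b, Complex.exp ((i : ℂ) * (L : ℂ)) * u L) -
          (if i = 0 then ∫ x : ℝ, g (x : ℂ) else 0))‖
      ≤ ε ^ k * (‖∫ L in a..b, Rm L * u L‖ + ∑ i ∈ Finset.range (N + 1), ‖α i * (ε : ℂ) ^ i *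
        ((∫ L in a..b, Complex.exp ((i : ℂ) * (L : ℂ)) * u L) -
          (if i = 0 then ∫ x : ℝ, g (x : ℂ) else 0))‖) := by
        refine mul_le_mul_of_nonneg_left ?_ (by positivity)
        exact (norm_add_le _ _).trans (add_le_add le_rfl (norm_sum_le _ _))
    _ = ε ^ k * ‖∫ L in a..b, Rm L * u L‖ + ∑ i ∈ Finset.range (N + 1),
          ε ^ k * ‖α i * (ε : ℂ) ^ i *
        ((∫ L in a..b, Complex.exp ((i : ℂ) * (L : ℂ)) * u L) -
          (if i = 0 then ∫ x : ℝ, g (x : ℂ) else 0))‖ := by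
        rw [mul_add, Finset.mul_sum]
    _ ≤ |Cd (N + 1)| * Cg * I0 * (ε / D) ^ (N + 1 + k) + ∑ i ∈ Finset.range (N + 1),
          |Cd i| * Ct * R1 ^ (N + 1) * (ε / D) ^ (N + 1 + k) :=
        add_le_add hremt (Finset.sum_le_sum hterm)
    _ = ((∑ i ∈ Finset.range (N + 1), |Cd i| * Ct * R1 ^ (N + 1)) + |Cd (N + 1)| * Cg * I0) *
          (ε / D) ^ (N + 1 + k) := by
        rw [← Finset.sum_mul]; ring

end Pool.Agent.AK.H34
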