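import Pool.Agent.Helper60_AK.StmtF

/-! # Squad AK (MP_d7b937_an): module L4, integrals depending on a parameter. -/

set_option autoImplicit false

namespace Pool.Agent.AK.H34

open MeasureTheory Set Filter Topology

section Gen

variable {E : Type} [NormedAddCommGroup E] [NormedSpace ℝ E]

/-- local bounds near a compact fibre -/
theorem tube_bound {F : Type} [NormedAddCommGroup F] {O : Set (E × ℝ)} (hO : IsOpen O)
    {G : E × ℝ → F} (hG : ContinuousOn G O) {a b : ℝ} {q0 : E}
    (hq : ∀ s ∈ Icc a b, (q0, s) ∈ O) :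
    ∃ u : Set E, IsOpen u ∧ q0 ∈ u ∧ ∃ C : ℝ, ∀ x ∈ u, ∀ s ∈ Icc a b, (x, s) ∈ O ∧
      ‖G (x, s)‖ ≤ C := by
  have hK : IsCompact (({q0} : Set E) ×ˢ Icc a b) := isCompact_singleton.prod isCompact_Icc
  have hKO : ({q0} : Set E) ×ˢ Icc a b ⊆ O := by
    rintro ⟨x, s⟩ ⟨hx, hs⟩
    rw [mem_singleton_iff] at hx
    simp only at hx hs
    rw [hx]
    exact hq s hs
  obtain ⟨C, hC⟩ := hK.exists_bound_of_continuousOn (hG.mono hKO)
  have hW : IsOpen (O ∩ (fun z => ‖G z‖) ⁻¹' (Iio (C + 1))) :=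
    hG.norm.isOpen_inter_preimage hO isOpen_Iio
  have hKW : ({q0} : Set E) ×ˢ Icc a b ⊆ O ∩ (fun z => ‖G z‖) ⁻¹' (Iio (C + 1)) := by
    intro z hz
    refine ⟨hKO hz, ?_⟩
    have := hC z hz
    show ‖G z‖ < C + 1
    linarith
  obtain ⟨u, v, hu, -, hqu, hv, huv⟩ :=
    generalized_tube_lemma isCompact_singleton isCompact_Icc hW hKW
  refine ⟨u, hu, hqu rfl, C + 1, fun x hx s hs => ?_⟩
  have h := huv (mk_mem_prod hx (hv hs))
  exact ⟨h.1, le_of_lt h.2⟩

theorem slice_cont {F : Type} [NormedAddCommGroup F] {O : Set (E × ℝ)}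
    {G : E × ℝ → F} (hG : ContinuousOn G O) {a b : ℝ} {q : E}
    (hq : ∀ s ∈ Icc a b, (q, s) ∈ O) : ContinuousOn (fun s => G (q, s)) (Icc a b) := by
  refine hG.comp (Continuous.continuousOn (by fun_prop)) ?_
  intro s hs
  exact hq s hs

theorem slice_meas {F : Type} [NormedAddCommGroup F] {a b : ℝ} (hab : a ≤ b)
    {g : ℝ → F} (hg : ContinuousOn g (Icc a b)) :
    AEStronglyMeasurable g (volume.restrict (uIoc a b)) := by
  rw [uIoc_of_le hab]
  exact (hg.mono Ioc_subset_Icc_self).aestronglyMeasurable measurableSet_Ioc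

theorem slice_int {F : Type} [NormedAddCommGroup F] {a b : ℝ} (hab : a ≤ b)
    {g : ℝ → F} (hg : ContinuousOn g (Icc a b)) : IntervalIntegrable g volume a b := by
  refine ContinuousOn.intervalIntegrable ?_
  rwa [uIcc_of_le hab]

/-- continuity of a parametric integral -/
theorem cont_int {F : Type} [NormedAddCommGroup F] [NormedSpace ℝ F] {O : Set (E × ℝ)}
    (hO : IsOpen O) {V : Set E} {a b : ℝ} (hab : a ≤ b) (hVO : V ×ˢ Icc a b ⊆ O)
    {G : E × ℝ → F} (hG : ContinuousOn G O) :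
    ContinuousOn (fun q => ∫ s in a..b, G (q, s)) V := by
  intro q0 hq0
  refine ContinuousAt.continuousWithinAt ?_
  have hq : ∀ s ∈ Icc a b, (q0, s) ∈ O := fun s hs => hVO (mk_mem_prod hq0 hs)
  obtain ⟨u, hu, hqu, C, hC⟩ := tube_bound hO hG hq
  have hun : u ∈ 𝓝 q0 := hu.mem_nhds hqu
  refine intervalIntegral.continuousAt_of_dominated_interval (bound := fun _ => C) ?_ ?_ ?_ ?_
  · filter_upwards [hun] with x hx
    exact slice_meas hab (slice_cont hG (fun s hs => (hC x hx s hs).1))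
  · filter_upwards [hun] with x hx
    refine Eventually.of_forall fun t ht => ?_
    rw [uIoc_of_le hab] at ht
    exact (hC x hx t (Ioc_subset_Icc_self ht)).2
  · exact intervalIntegrable_const
  · refine Eventually.of_forall fun t ht => ?_
    rw [uIoc_of_le hab] at ht
    have h1 : ContinuousAt G (q0, t) := hG.continuousAt (hO.mem_nhds (hq t (Ioc_subset_Icc_self ht)))
    exact ContinuousAt.comp (f := fun x : E => (x, t)) (g := G) h1 (by fun_prop)

variable {F : Type} [NormedAddCommGroup F] [NormedSpace ℝ F]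

/-- The partial derivative. -/
theorem partial_hasFDeriv {O : Set (E × ℝ)} (hO : IsOpen O) {H : E → ℝ → F} {m : ℕ}
    (hH : ContDiffOn ℝ ((m + 1 : ℕ) : WithTop ℕ∞) (fun x : E × ℝ => H x.1 x.2) O) {q : E} {s : ℝ}
    (hq : (q, s) ∈ O) :
    HasFDerivAt (fun x => H x s)
      ((fderiv ℝ (fun x : E × ℝ => H x.1 x.2) (q, s)).comp (ContinuousLinearMap.inl ℝ E ℝ)) q := by
  have h1 : DifferentiableAt ℝ (fun x : E × ℝ => H x.1 x.2) (q, s) :=
    (hH.differentiableOn (by simp)).differentiableAt (hO.mem_nhds hq)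
  have h2 : HasFDerivAt (fun x : E => (x, s)) (ContinuousLinearMap.inl ℝ E ℝ) q :=
    hasFDerivAt_prodMk_left q s
  exact HasFDerivAt.comp (g := fun x : E × ℝ => H x.1 x.2) q h1.hasFDerivAt h2

theorem partial_contDiff {O : Set (E × ℝ)} (hO : IsOpen O) {H : E → ℝ → F} {m : ℕ}
    (hH : ContDiffOn ℝ ((m + 1 : ℕ) : WithTop ℕ∞) (fun x : E × ℝ => H x.1 x.2) O) :
    ContDiffOn ℝ (m : WithTop ℕ∞) (fun x : E × ℝ => fderiv ℝ (fun y => H y x.2) x.1) O := by
  have h1 : ContDiffOn ℝ (m : WithTop ℕ∞) (fderiv ℝ (fun x : E × ℝ => H x.1 x.2)) O :=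
    hH.fderiv_of_isOpen hO (by push_cast; exact le_rfl)
  have h2 : ContDiffOn ℝ (m : WithTop ℕ∞) (fun z : E × ℝ =>
      (fderiv ℝ (fun x : E × ℝ => H x.1 x.2) z).comp (ContinuousLinearMap.inl ℝ E ℝ)) O :=
    h1.clm_comp contDiffOn_const
  refine h2.congr ?_
  rintro ⟨q, s⟩ hq
  exact (partial_hasFDeriv hO hH hq).fderiv

/-- differentiation under the integral sign -/
theorem hasFDeriv_int [CompleteSpace F] {O : Set (E × ℝ)} (hO : IsOpen O) {V : Set E} {a b : ℝ}
    (hab : a ≤ b) (hVO : V ×ˢ Icc a b ⊆ O) {H : E → ℝ → F} {m : ℕ}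
    (hH : ContDiffOn ℝ ((m + 1 : ℕ) : WithTop ℕ∞) (fun x : E × ℝ => H x.1 x.2) O) {q0 : E}
    (hq0 : q0 ∈ V) :
    HasFDerivAt (fun q => ∫ s in a..b, H q s) (∫ s in a..b, fderiv ℝ (fun y => H y s) q0) q0 := by
  have hG : ContinuousOn (fun x : E × ℝ => fderiv ℝ (fun y => H y x.2) x.1) O :=
    (partial_contDiff hO hH).continuousOn
  have hHc : ContinuousOn (fun x : E × ℝ => H x.1 x.2) O := hH.continuousOn
  have hq : ∀ s ∈ Icc a b, (q0, s) ∈ O := fun s hs => hVO (mk_mem_prod hq0 hs)
  obtain ⟨u, hu, hqu, C, hC⟩ := tube_bound hO hG hq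
  have hun : u ∈ 𝓝 q0 := hu.mem_nhds hqu
  refine intervalIntegral.hasFDerivAt_integral_of_dominated_of_fderiv_le (s := u)
    (F' := fun q s => fderiv ℝ (fun y => H y s) q) (bound := fun _ => C) hun ?_ ?_ ?_ ?_ ?_ ?_
  · filter_upwards [hun] with x hx
    exact slice_meas hab (slice_cont hHc (fun s hs => (hC x hx s hs).1))
  · exact slice_int hab (slice_cont hHc hq)
  · exact slice_meas hab (slice_cont hG hq)
  · refine Eventually.of_forall fun t ht x hx => ?_
    rw [uIoc_of_le hab] at ht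
    exact (hC x hx t (Ioc_subset_Icc_self ht)).2
  · exact intervalIntegrable_const
  · refine Eventually.of_forall fun t ht x hx => ?_
    rw [uIoc_of_le hab] at ht
    have h := partial_hasFDeriv hO hH (hC x hx t (Ioc_subset_Icc_self ht)).1
    have e : fderiv ℝ (fun y => H y t) x = _ := h.fderiv
    show HasFDerivAt (fun x => H x t) (fderiv ℝ (fun y => H y t) x) x
    rw [e]; exact h

/-- the main induction -/
theorem main (n : ℕ) : ∀ (F : Type) [NormedAddCommGroup F] [NormedSpace ℝ F] [CompleteSpace F]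
    {O : Set (E × ℝ)} (_ : IsOpen O) {V : Set E} (_ : IsOpen V) {a b : ℝ}
    (_ : a ≤ b) (_ : V ×ˢ Icc a b ⊆ O) (H : E → ℝ → F)
    (_ : ContDiffOn ℝ (n : WithTop ℕ∞) (fun x : E × ℝ => H x.1 x.2) O),
    ContDiffOn ℝ (n : WithTop ℕ∞) (fun q => ∫ s in a..b, H q s) V ∧
    ∀ j ≤ n, ∀ q ∈ V,
      ContinuousOn (fun s => iteratedFDeriv ℝ j (fun x => H x s) q) (Icc a b) ∧
      ‖iteratedFDeriv ℝ j (fun x => ∫ s in a..b, H x s) q‖ ≤
        ∫ s in a..b, ‖iteratedFDeriv ℝ j (fun x => H x s) q‖ := by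
  have zero : ∀ (F : Type) [NormedAddCommGroup F] [NormedSpace ℝ F] [CompleteSpace F]
    {O : Set (E × ℝ)} (_ : IsOpen O) {V : Set E} (_ : IsOpen V) {a b : ℝ}
    (_ : a ≤ b) (_ : V ×ˢ Icc a b ⊆ O) (H : E → ℝ → F)
    (_ : ContinuousOn (fun x : E × ℝ => H x.1 x.2) O), ∀ q ∈ V,
      ContinuousOn (fun s => iteratedFDeriv ℝ 0 (fun x => H x s) q) (Icc a b) ∧
      ‖iteratedFDeriv ℝ 0 (fun x => ∫ s in a..b, H x s) q‖ ≤
        ∫ s in a..b, ‖iteratedFDeriv ℝ 0 (fun x => H x s) q‖ := by
    intro F _ _ _ O hO V hV a b hab hVO H hH q hq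
    have hq' : ∀ s ∈ Icc a b, (q, s) ∈ O := fun s hs => hVO (mk_mem_prod hq hs)
    have hc : ContinuousOn (fun s => H q s) (Icc a b) := slice_cont hH hq'
    constructor
    · have e : (fun s => iteratedFDeriv ℝ 0 (fun x => H x s) q) =
          fun s => (continuousMultilinearCurryFin0 ℝ E F).symm (H q s) := by
        funext s
        rw [iteratedFDeriv_zero_eq_comp]
        rfl
      rw [e]
      exact (continuousMultilinearCurryFin0 ℝ E F).symm.continuous.comp_continuousOn hc
    · simp only [norm_iteratedFDeriv_zero]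
      exact intervalIntegral.norm_integral_le_integral_norm hab
  induction n with
  | zero =>
    intro F _ _ _ O hO V hV a b hab hVO H hH
    have hHc : ContinuousOn (fun x : E × ℝ => H x.1 x.2) O := hH.continuousOn
    refine ⟨?_, ?_⟩
    · rw [Nat.cast_zero, contDiffOn_zero]
      exact cont_int hO hab hVO hHc
    · intro j hj q hq
      obtain rfl : j = 0 := by omega
      exact zero F hO hV hab hVO H hHc q hq
  | succ n ih =>
    intro F _ _ _ O hO V hV a b hab hVO H hH
    have hHc : ContinuousOn (fun x : E × ℝ => H x.1 x.2) O := hH.continuousOn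
    have hH' := partial_contDiff hO hH
    obtain ⟨i1, i2⟩ := ih (E →L[ℝ] F) hO hV hab hVO (fun q s => fderiv ℝ (fun y => H y s) q) hH'
    have hfd : ∀ q ∈ V, fderiv ℝ (fun q => ∫ s in a..b, H q s) q =
        ∫ s in a..b, fderiv ℝ (fun y => H y s) q := fun q hq =>
      (hasFDeriv_int hO hab hVO hH hq).fderiv
    refine ⟨?_, ?_⟩
    · push_cast
      rw [contDiffOn_succ_iff_fderiv_of_isOpen hV]
      refine ⟨fun q hq => (hasFDeriv_int hO hab hVO hH hq).differentiableAt.differentiableWithinAt,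
        fun h => absurd h (by simp), ?_⟩
      exact i1.congr hfd
    · intro j hj q hq
      rcases j with _ | j
      · exact zero F hO hV hab hVO H hHc q hq
      · obtain ⟨k1, k2⟩ := i2 j (by omega) q hq
        constructor
        · have e : (fun s => iteratedFDeriv ℝ (j + 1) (fun x => H x s) q) =
              fun s => (continuousMultilinearCurryRightEquiv' ℝ j E F).symm
                (iteratedFDeriv ℝ j (fderiv ℝ (fun x => H x s)) q) := by
            funext s
            rw [iteratedFDeriv_succ_eq_comp_right]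
            rfl
          rw [e]
          exact (continuousMultilinearCurryRightEquiv' ℝ j E F).symm.continuous.comp_continuousOn k1
        · have e1 : ‖iteratedFDeriv ℝ (j + 1) (fun x => ∫ s in a..b, H x s) q‖ =
              ‖iteratedFDeriv ℝ j (fun q => ∫ s in a..b, fderiv ℝ (fun y => H y s) q) q‖ := by
            rw [← norm_iteratedFDeriv_fderiv]
            have hev : fderiv ℝ (fun q => ∫ s in a..b, H q s) =ᶠ[𝓝 q]
                fun q => ∫ s in a..b, fderiv ℝ (fun y => H y s) q := by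
              filter_upwards [hV.mem_nhds hq] with x hx
              exact hfd x hx
            rw [hev.iteratedFDeriv ℝ j |>.eq_of_nhds]
          rw [e1]
          refine k2.trans (le_of_eq ?_)
          refine intervalIntegral.integral_congr fun s _ => ?_
          exact norm_iteratedFDeriv_fderiv

end Gen

/-- L4 -/
theorem l4 : L4Stmt := by
  intro V a b H O n hV hab hO hVO hH
  obtain ⟨h1, h2⟩ := main (E := C2) n ℂ hO hV hab hVO H hH
  refine ⟨h1, h2, ?_⟩
  intro hn q hq i
  obtain ⟨m, rfl⟩ : ∃ m, n = m + 1 := ⟨n - 1, by omega⟩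
  have hd := (hasFDeriv_int hO hab hVO hH hq).fderiv
  have hG : ContinuousOn (fun x : C2 × ℝ => fderiv ℝ (fun y => H y x.2) x.1) O :=
    (partial_contDiff hO hH).continuousOn
  have hq' : ∀ s ∈ Icc a b, (q, s) ∈ O := fun s hs => hVO (mk_mem_prod hq hs)
  have hint : IntervalIntegrable (fun s => fderiv ℝ (fun y => H y s) q) volume a b :=
    slice_int hab (slice_cont hG hq')
  have hap : ∀ v : C2, (∫ s in a..b, fderiv ℝ (fun y => H y s) q) v =
      ∫ s in a..b, (fderiv ℝ (fun y => H y s) q) v := fun v =>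
    ContinuousLinearMap.intervalIntegral_apply hint v
  have hci : ∀ v : C2, IntervalIntegrable (fun s => (fderiv ℝ (fun y => H y s) q) v) volume a b := by
    intro v
    have hc : ContinuousOn (fun s => (fderiv ℝ (fun y => H y s) q) v) (Icc a b) :=
      (slice_cont hG hq').clm_apply continuousOn_const
    exact slice_int hab hc
  simp only [dzb]
  have h3 : IntervalIntegrable (fun s => Complex.I • (fderiv ℝ (fun y => H y s) q)
      (Pi.single i Complex.I)) volume a b := (hci (Pi.single i Complex.I)).smul Complex.I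
  have h4 := intervalIntegral.integral_add (hci (Pi.single i 1)) h3
  rw [hd, hap, hap, intervalIntegral.integral_smul, h4, intervalIntegral.integral_smul]

end Pool.Agent.AK.H34
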